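import Pool.Agent.W757.BL.Defs

/-!
# The closed trajectories of an invariant circle have greatest perimeter
-/

set_option autoImplicit false

namespace Pool.Agent.W311.BL

open Set Filter Topology Pool.Agent.W757.BL

theorem t_CAL : S_CAL := by
  intro x y x' y' L hC hF f hI n s₀ hn hs₀ c hc
  have hL := hC.L0
  -- the function u
  set u : ℝ → ℝ := fun s => - h1 x y x' y' s (f s) with hu
  have hucont : Continuous u := by
    rw [hu]
    refine Continuous.neg ?_
    have h1' : Continuous (fun s : ℝ => ((s, f s) : ℝ × ℝ)) := continuous_id.prodMk hI.cont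
    exact hF.c1.comp_continuous h1' (fun s => ⟨hI.lo s, hI.hi s⟩)
  set U : ℝ → ℝ := fun s => ∫ t in (0 : ℝ)..s, u t with hU
  have hUd : ∀ s, HasDerivAt U (u s) s := fun s =>
    intervalIntegral.integral_hasDerivAt_right (hucont.intervalIntegrable _ _)
      (hucont.stronglyMeasurableAtFilter _ _) hucont.continuousAt
  have huper : ∀ s, u (s + L) = u s := by
    intro s
    have h1p : h1 x y x' y' (s + L) (f (s + L)) = h1 x y x' y' s (f s) := by
      rw [hI.per]
      unfold h1
      rw [hF.per, hC.px, hC.py, hC.px, hC.py, (hF.dper s).1, (hF.dper s).2]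
    simp only [hu, h1p]
  have hκ : ∀ a b, U (a + L) - U a = U (b + L) - U b := by
    intro a b
    have hd : ∀ s, HasDerivAt (fun s => U (s + L) - U s) 0 s := by
      intro s
      have e1 : HasDerivAt (fun s => U (s + L)) (u (s + L)) s := by
        exact (hUd (s + L)).comp_add_const s L
      have e2 := e1.sub (hUd s)
      rw [huper, sub_self] at e2
      exact e2
    exact is_const_of_deriv_eq_zero (fun s => (hd s).differentiableAt) (fun s => (hd s).deriv) a b
  -- derivatives of chord length
  have hd1 : ∀ a b, a < b → b < a + L → HasDerivAt (fun s => hh x y s b) (h1 x y x' y' a b) a := by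
    intro a b hab hba
    have h := hF.dline a b 1 0 hab hba
    have h' : HasDerivAt (fun s : ℝ => s - a) 1 a := by
      simpa using (hasDerivAt_id a).sub_const a
    have h0 : HasDerivAt (fun τ : ℝ => hh x y (a + τ * 1) (b + τ * 0))
        (h1 x y x' y' a b * 1 + h2 x y x' y' a b * 0) ((fun s : ℝ => s - a) a) := by
      simpa using h
    have h2' := HasDerivAt.comp (h := fun s : ℝ => s - a) a h0 h'
    have h3 : (fun τ : ℝ => hh x y (a + τ * 1) (b + τ * 0)) ∘ (fun s : ℝ => s - a) =
        fun s => hh x y s b := by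
      funext s
      simp
    rw [h3] at h2'
    simpa using h2'
  have hd2 : ∀ a b, a < b → b < a + L → HasDerivAt (fun s => hh x y a s) (h2 x y x' y' a b) b := by
    intro a b hab hba
    have h := hF.dline a b 0 1 hab hba
    have h' : HasDerivAt (fun s : ℝ => s - b) 1 b := by
      simpa using (hasDerivAt_id b).sub_const b
    have h0 : HasDerivAt (fun τ : ℝ => hh x y (a + τ * 0) (b + τ * 1))
        (h1 x y x' y' a b * 0 + h2 x y x' y' a b * 1) ((fun s : ℝ => s - b) b) := by
      simpa using h
    have h2' := HasDerivAt.comp (h := fun s : ℝ => s - b) b h0 h'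
    have h3 : (fun τ : ℝ => hh x y (a + τ * 0) (b + τ * 1)) ∘ (fun s : ℝ => s - b) =
        fun s => hh x y a s := by
      funext s
      simp
    rw [h3] at h2'
    simpa using h2'
  have hsurj : Function.Surjective f := by
    refine hI.cont.surjective ?_ ?_
    · exact tendsto_atTop_mono (fun s => (hI.lo s).le) tendsto_id
    · exact tendsto_atBot_mono (fun s => (hI.hi s).le) (tendsto_atBot_add_const_right _ L tendsto_id)
  have hulaw : ∀ p, u (f p) = h2 x y x' y' p (f p) := by
    intro p
    have := hI.law p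
    simp only [hu]
    linarith
  set φ : ℝ → ℝ → ℝ := fun s r => hh x y s r + U s - U r with hφ
  have hφ1 : ∀ s r, s < r → r < s + L →
      HasDerivAt (fun t => φ t r) (h1 x y x' y' s r - h1 x y x' y' s (f s)) s := by
    intro s r h1' h2'
    have := ((hd1 s r h1' h2').add (hUd s)).sub_const (U r)
    have e : h1 x y x' y' s r - h1 x y x' y' s (f s) = h1 x y x' y' s r + u s := by
      simp only [hu]; ring
    rw [e]
    exact this
  have hφ2 : ∀ s r, s < r → r < s + L →
      HasDerivAt (fun t => φ s t) (h2 x y x' y' s r - u r) r := by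
    intro s r h1' h2'
    exact ((hd2 s r h1' h2').add_const (U s)).sub (hUd r)
  have hmax : ∀ s r, s < r → r < s + L → φ s r ≤ φ s (f s) := by
    intro s r h1' h2'
    rcases lt_trichotomy r (f s) with h | h | h
    · have hm : ∀ t ∈ Icc r (f s), s < t ∧ t < s + L := fun t ht =>
        ⟨lt_of_lt_of_le h1' ht.1, lt_of_le_of_lt ht.2 (hI.hi s)⟩
      obtain ⟨ξ, hξ, hξ2⟩ := exists_hasDerivAt_eq_slope (fun t => φ s t)
        (fun t => h2 x y x' y' s t - u t) h
        (fun t ht => (hφ2 s t (hm t ht).1 (hm t ht).2).continuousAt.continuousWithinAt)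
        (fun t ht => hφ2 s t (hm t (Ioo_subset_Icc_self ht)).1 (hm t (Ioo_subset_Icc_self ht)).2)
      obtain ⟨p, rfl⟩ := hsurj ξ
      have hp1 : p < s := hI.mono.lt_iff_lt.mp hξ.2
      have hpos : 0 < h2 x y x' y' s (f p) - u (f p) := by
        rw [hulaw p, sub_pos]
        exact hF.m2 p s (f p) hp1 (hm _ (Ioo_subset_Icc_self hξ)).1 (hI.hi p)
      rw [hξ2] at hpos
      have := (div_pos_iff_of_pos_right (sub_pos.mpr h)).mp hpos
      linarith
    · rw [h]
    · have hm : ∀ t ∈ Icc (f s) r, s < t ∧ t < s + L := fun t ht =>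
        ⟨lt_of_lt_of_le (hI.lo s) ht.1, lt_of_le_of_lt ht.2 h2'⟩
      obtain ⟨ξ, hξ, hξ2⟩ := exists_hasDerivAt_eq_slope (fun t => φ s t)
        (fun t => h2 x y x' y' s t - u t) h
        (fun t ht => (hφ2 s t (hm t ht).1 (hm t ht).2).continuousAt.continuousWithinAt)
        (fun t ht => hφ2 s t (hm t (Ioo_subset_Icc_self ht)).1 (hm t (Ioo_subset_Icc_self ht)).2)
      obtain ⟨p, rfl⟩ := hsurj ξ
      have hp1 : s < p := hI.mono.lt_iff_lt.mp hξ.1
      have hneg : h2 x y x' y' s (f p) - u (f p) < 0 := by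
        rw [hulaw p, sub_neg]
        exact hF.m2 s p (f p) hp1 (hI.lo p) (hm _ (Ioo_subset_Icc_self hξ)).2
      rw [hξ2] at hneg
      have h8 : 0 < r - f s := sub_pos.mpr h
      rw [div_lt_iff₀ h8] at hneg
      linarith
  -- ψ is constant
  have hψ : ∀ s, HasDerivAt (fun s => φ s (f s)) 0 s := by
    intro s
    rw [hasDerivAt_iff_isLittleO, Asymptotics.isLittleO_iff]
    intro ε hε
    have hG : ContinuousAt (fun q : ℝ × ℝ => h1 x y x' y' q.1 (f q.2) - h1 x y x' y' q.1 (f q.1))
        (s, s) := by
      have hopen : IsOpen {p : ℝ × ℝ | p.1 < p.2 ∧ p.2 < p.1 + L} :=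
        (isOpen_lt continuous_fst continuous_snd).inter
          (isOpen_lt continuous_snd (continuous_fst.add continuous_const))
      have hca : ContinuousAt (fun p : ℝ × ℝ => h1 x y x' y' p.1 p.2) (s, f s) :=
        hF.c1.continuousAt (hopen.mem_nhds ⟨hI.lo s, hI.hi s⟩)
      refine ContinuousAt.sub ?_ ?_
      · exact ContinuousAt.comp (f := fun q : ℝ × ℝ => ((q.1, f q.2) : ℝ × ℝ))
          (x := ((s, s) : ℝ × ℝ)) (g := fun p : ℝ × ℝ => h1 x y x' y' p.1 p.2) hca
          ((continuous_fst.prodMk (hI.cont.comp continuous_snd)).continuousAt)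
      · exact ContinuousAt.comp (f := fun q : ℝ × ℝ => ((q.1, f q.1) : ℝ × ℝ))
          (x := ((s, s) : ℝ × ℝ)) (g := fun p : ℝ × ℝ => h1 x y x' y' p.1 p.2) hca
          ((continuous_fst.prodMk (hI.cont.comp continuous_fst)).continuousAt)
    have hev1 : ∀ᶠ q : ℝ × ℝ in 𝓝 (s, s),
        |h1 x y x' y' q.1 (f q.2) - h1 x y x' y' q.1 (f q.1)| < ε := by
      have hG2 := hG.tendsto
      simp only [sub_self] at hG2
      have := hG2.abs
      rw [abs_zero] at this
      exact this.eventually (gt_mem_nhds hε)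
    have hev2 : ∀ᶠ q : ℝ × ℝ in 𝓝 (s, s), q.1 < f q.2 ∧ f q.2 < q.1 + L := by
      have hopen : IsOpen {q : ℝ × ℝ | q.1 < f q.2 ∧ f q.2 < q.1 + L} :=
        (isOpen_lt continuous_fst (hI.cont.comp continuous_snd)).inter
          (isOpen_lt (hI.cont.comp continuous_snd) (continuous_fst.add continuous_const))
      exact hopen.mem_nhds ⟨hI.lo s, hI.hi s⟩
    obtain ⟨δ, hδ, hball⟩ := Metric.eventually_nhds_iff.mp (hev1.and hev2)
    have hb : ∀ a b, |a - s| < δ → |b - s| < δ →
        |h1 x y x' y' a (f b) - h1 x y x' y' a (f a)| < ε ∧ a < f b ∧ f b < a + L := by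
      intro a b ha hb
      have : dist ((a, b) : ℝ × ℝ) (s, s) < δ := by
        rw [Prod.dist_eq, max_lt_iff]
        exact ⟨by simpa [Real.dist_eq] using ha, by simpa [Real.dist_eq] using hb⟩
      obtain ⟨q1, q2, q3⟩ := hball this
      exact ⟨q1, q2, q3⟩
    -- variation in the first argument
    have hvar : ∀ b s', |b - s| < δ → |s' - s| < δ → |φ s' (f b) - φ s (f b)| ≤ ε * |s' - s| := by
      intro b s' hbb hs'
      have hin : ∀ t ∈ uIcc s s', |t - s| < δ := by
        intro t ht
        have h1' : |t - s| ≤ |s' - s| := abs_sub_left_of_mem_uIcc ht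
        exact lt_of_le_of_lt h1' hs'
      have hder : ∀ t ∈ uIcc s s', HasDerivWithinAt (fun t => φ t (f b))
          (h1 x y x' y' t (f b) - h1 x y x' y' t (f t)) (uIcc s s') t := by
        intro t ht
        obtain ⟨q1, q2, q3⟩ := hb t b (hin t ht) hbb
        exact (hφ1 t (f b) q2 q3).hasDerivWithinAt
      have hbd : ∀ t ∈ uIcc s s', ‖h1 x y x' y' t (f b) - h1 x y x' y' t (f t)‖ ≤ ε := by
        intro t ht
        exact (hb t b (hin t ht) hbb).1.le
      have := (convex_uIcc s s').norm_image_sub_le_of_norm_hasDerivWithin_le hder hbd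
        left_mem_uIcc right_mem_uIcc
      simpa [Real.norm_eq_abs] using this
    have hnear : ∀ᶠ s' in 𝓝 s, |s' - s| < δ := by
      have := Metric.ball_mem_nhds s hδ
      filter_upwards [this] with s' hs'
      simpa [Real.dist_eq] using hs'
    filter_upwards [hnear] with s' hs'
    have hs0 : |s - s| < δ := by simpa using hδ
    have e1 := hvar s s' hs0 hs'
    have e2 := hvar s' s' hs' hs'
    have m1 := hmax s' (f s) (hb s' s hs' hs0).2.1 (hb s' s hs' hs0).2.2
    have m2 := hmax s (f s') (hb s s' hs0 hs').2.1 (hb s s' hs0 hs').2.2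
    have e1' := abs_le.mp e1
    have e2' := abs_le.mp e2
    simp only [smul_zero, sub_zero, Real.norm_eq_abs]
    rw [abs_le]
    constructor
    · linarith [e1'.1]
    · linarith [e2'.2]
  have hψc : ∀ s t, φ s (f s) = φ t (f t) := fun s t =>
    is_const_of_deriv_eq_zero (f := fun s => φ s (f s)) (fun s => (hψ s).differentiableAt)
      (fun s => (hψ s).deriv) s t
  -- the sums
  have hn2 : 2 ≤ n := by
    by_contra h
    have h1' : n = 1 := by omega
    subst h1'
    have := hI.hi s₀
    simp only [Function.iterate_one] at hs₀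
    linarith
  have hmono : StrictMono c := strictMono_nat_of_lt_succ hc.mono
  have hcs : ∀ i, c (i + 1) < c i + L := by
    intro i
    rw [← hc.per i]
    exact hmono (by omega)
  have htel : ∀ d : ℕ → ℝ, ∑ i ∈ Finset.range n, (U (d i) - U (d (i + 1))) = U (d 0) - U (d n) := by
    intro d
    exact Finset.sum_range_sub' (fun i => U (d i)) n
  have hA : SS x y n c + (U (c 0) - U (c n)) ≤ n * φ s₀ (f s₀) := by
    rw [← htel c, SS, ← Finset.sum_add_distrib]
    calc ∑ i ∈ Finset.range n, (hh x y (c i) (c (i + 1)) + (U (c i) - U (c (i + 1))))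
        ≤ ∑ i ∈ Finset.range n, φ s₀ (f s₀) := by
          apply Finset.sum_le_sum
          intro i _
          rw [← hψc (c i) s₀]
          have := hmax (c i) (c (i + 1)) (hc.mono i) (hcs i)
          simp only [hφ] at this ⊢
          linarith
      _ = n * φ s₀ (f s₀) := by simp
  have hB : SS x y n (fun i => f^[i] s₀) + (U s₀ - U (s₀ + L)) = n * φ s₀ (f s₀) := by
    have h0 := htel (fun i => f^[i] s₀)
    simp only [Function.iterate_zero, id_eq] at h0
    rw [hs₀] at h0
    rw [← h0, SS, ← Finset.sum_add_distrib]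
    calc ∑ i ∈ Finset.range n, (hh x y (f^[i] s₀) (f^[i + 1] s₀) + (U (f^[i] s₀) - U (f^[i + 1] s₀)))
        = ∑ i ∈ Finset.range n, φ s₀ (f s₀) := by
          apply Finset.sum_congr rfl
          intro i _
          rw [← hψc (f^[i] s₀) s₀, Function.iterate_succ_apply']
          simp only [hφ]
          ring
      _ = n * φ s₀ (f s₀) := by simp
  have hcn : c n = c 0 + L := by simpa using hc.per 0
  have := hκ (c 0) s₀
  rw [hcn] at hA
  linarith

end Pool.Agent.W311.BL
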